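import Pool.Agent.X115.HS.Stm

/-!
Project HS (helper115), part ZA: a nonnegative continuous function whose heat means decay fast
vanishes.
-/

set_option autoImplicit false

open MeasureTheory Set Filter Topology Metric

namespace Pool.Agent.X169.HSP

open Pool.Agent.X115.HS

theorem t_ZA : S_ZA := by
  intro n a x0 hac ha0 hint hdec
  by_contra hne
  have hpos : 0 < a x0 := lt_of_le_of_ne (ha0 x0) (Ne.symm hne)
  obtain ⟨r, hr, hball⟩ : ∃ r : ℝ, 0 < r ∧ ∀ x, dist x x0 < r → a x0 / 2 < a x := by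
    have h := hac.continuousAt.eventually (lt_mem_nhds (half_lt_self hpos))
    obtain ⟨r, hr, h⟩ := Metric.eventually_nhds_iff.1 h
    exact ⟨r, hr, fun x hx => h hx⟩
  set vol : ℝ := (volume (ball x0 r)).toReal with hvol
  have hvol0 : 0 < vol := ENNReal.toReal_pos (measure_ball_pos volume x0 hr).ne'
    measure_ball_lt_top.ne
  set K : ℝ := Real.exp (-r ^ 2 / 4) with hK
  have hK0 : 0 < K := Real.exp_pos _
  obtain ⟨Dd, hD⟩ := hdec (n + 1) (by omega)
  -- lower bound for the mean
  have hlow : ∀ s : ℝ, 1 ≤ s →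
      (a x0 / 2 * K * vol) * (4 * Real.pi * s) ^ (-((n : ℝ) / 2)) ≤
        ∫ x, a x * gk s (x - x0) := by
    intro s hs
    have hs0 : 0 < s := by linarith
    have hgk0 : ∀ x : X n, 0 ≤ gk s x := fun x => by unfold gk; positivity
    have h1 : ∫ x in ball x0 r, (a x0 / 2 * K) * (4 * Real.pi * s) ^ (-((n : ℝ) / 2)) ≤
        ∫ x in ball x0 r, a x * gk s (x - x0) := by
      refine setIntegral_mono_on ?_ (hint s hs0).integrableOn measurableSet_ball ?_
      · exact integrableOn_const (measure_ball_lt_top.ne)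
      · intro x hx
        have hx' : dist x x0 < r := hx
        have h2 := hball x hx'
        have h3 : K ≤ Real.exp (-‖x - x0‖ ^ 2 / (4 * s)) := by
          rw [hK]
          apply Real.exp_le_exp.2
          have h4 : ‖x - x0‖ ^ 2 ≤ r ^ 2 := by
            rw [← dist_eq_norm]
            exact pow_le_pow_left₀ dist_nonneg hx'.le 2
          have h5 : ‖x - x0‖ ^ 2 / (4 * s) ≤ r ^ 2 / 4 := by
            rw [div_le_div_iff₀ (by positivity) (by norm_num)]
            nlinarith [sq_nonneg r, sq_nonneg ‖x - x0‖]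
          have e1 : -‖x - x0‖ ^ 2 / (4 * s) = -(‖x - x0‖ ^ 2 / (4 * s)) := by ring
          have e2 : -r ^ 2 / 4 = -(r ^ 2 / 4) := by ring
          rw [e1, e2]
          linarith
        have h6 : 0 < (4 * Real.pi * s) ^ (-((n : ℝ) / 2)) := by positivity
        unfold gk
        calc a x0 / 2 * K * (4 * Real.pi * s) ^ (-((n : ℝ) / 2))
            ≤ a x * Real.exp (-‖x - x0‖ ^ 2 / (4 * s)) *
              (4 * Real.pi * s) ^ (-((n : ℝ) / 2)) := by
              apply mul_le_mul_of_nonneg_right _ h6.le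
              exact mul_le_mul h2.le h3 hK0.le (ha0 x)
          _ = _ := by ring
    have h7 : ∫ x in ball x0 r, a x * gk s (x - x0) ≤ ∫ x, a x * gk s (x - x0) :=
      setIntegral_le_integral (hint s hs0)
        (Eventually.of_forall fun x => mul_nonneg (ha0 x) (hgk0 _))
    have h8 : ∫ x in ball x0 r, (a x0 / 2 * K) * (4 * Real.pi * s) ^ (-((n : ℝ) / 2)) =
        (a x0 / 2 * K * vol) * (4 * Real.pi * s) ^ (-((n : ℝ) / 2)) := by
      rw [setIntegral_const, smul_eq_mul]
      simp only [Measure.real]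
      rw [← hvol]; ring
    rw [← h8]
    exact h1.trans h7
  -- contradiction
  set c : ℝ := (a x0 / 2 * K * vol) * (4 * Real.pi) ^ (-((n : ℝ) / 2)) with hc
  have hc0 : 0 < c := by positivity
  have hcs : ∀ s : ℝ, 1 ≤ s → c * s ≤ Dd := by
    intro s hs
    have hs0 : 0 < s := by linarith
    have h1 := hD s hs
    have h2 := mul_le_mul_of_nonneg_left (hlow s hs) (by positivity : (0:ℝ) ≤ s ^ (n + 1))
    refine le_trans ?_ (h2.trans h1)
    have h3 : (4 * Real.pi * s) ^ (-((n : ℝ) / 2)) =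
        (4 * Real.pi) ^ (-((n : ℝ) / 2)) * s ^ (-((n : ℝ) / 2)) :=
      Real.mul_rpow (by positivity) hs0.le
    have h4 : s ≤ s ^ (n + 1) * s ^ (-((n : ℝ) / 2)) := by
      rw [← Real.rpow_natCast s (n + 1), ← Real.rpow_add hs0]
      have h5 : (1 : ℝ) ≤ ((n + 1 : ℕ) : ℝ) + -((n : ℝ) / 2) := by
        push_cast
        have : (0:ℝ) ≤ n := Nat.cast_nonneg n
        linarith
      calc s = s ^ (1 : ℝ) := (Real.rpow_one s).symm
        _ ≤ _ := Real.rpow_le_rpow_of_exponent_le hs h5
    rw [h3, hc]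
    calc (a x0 / 2 * K * vol) * (4 * Real.pi) ^ (-((n : ℝ) / 2)) * s
        ≤ (a x0 / 2 * K * vol) * (4 * Real.pi) ^ (-((n : ℝ) / 2)) *
          (s ^ (n + 1) * s ^ (-((n : ℝ) / 2))) := mul_le_mul_of_nonneg_left h4 (by positivity)
      _ = _ := by ring
  have h9 := hcs (max 1 ((|Dd| + 1) / c)) (le_max_left _ _)
  have h10 : c * ((|Dd| + 1) / c) ≤ c * max 1 ((|Dd| + 1) / c) :=
    mul_le_mul_of_nonneg_left (le_max_right _ _) hc0.le
  rw [mul_div_cancel₀ _ hc0.ne'] at h10
  have := le_abs_self Dd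
  linarith

end Pool.Agent.X169.HSP
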